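import Pool.Agent.N424.M4.Has

/-!
# Project PF (helper783), part HV: preparations

Diagonalisation over every field of characteristic zero, and local constancy of the isometry class
over a complete field. By helper286 (the diagonalisation is that of helper835, `N835/PQ/Rec.lean`).
-/

set_option autoImplicit false
set_option linter.all false

open Matrix Filter Topology
open scoped Classical

namespace Pool.Agent.N286.PF

open Pool.Agent.N202.M4 (hasse hil IsSymbol)

/-- diagonalisation of a symmetric matrix -/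
lemma exists_diag {F : Type} [Field F] [CharZero F] {n : ℕ} (G : Matrix (Fin n) (Fin n) F)
    (hs : G.IsSymm) (hd : G.det ≠ 0) :
    ∃ (a : Fin n → F) (T : Matrix (Fin n) (Fin n) F), (∀ i, a i ≠ 0) ∧ T.det ≠ 0 ∧
      T * Matrix.diagonal a * Tᵀ = G := by
  set B : LinearMap.BilinForm F (Fin n → F) := Matrix.toBilin' G with hBd
  have hBa : ∀ x y, B x y = x ⬝ᵥ G *ᵥ y := fun x y => by rw [hBd, Matrix.toBilin'_apply']
  have hBs : LinearMap.IsSymm B := by
    refine ⟨fun x y => ?_⟩
    show B x y = B y x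
    rw [hBa, hBa, Matrix.dotProduct_mulVec, dotProduct_comm, ← Matrix.mulVec_transpose, hs.eq]
  haveI : Invertible (2 : F) := invertibleOfNonzero two_ne_zero
  obtain ⟨v, hv⟩ := LinearMap.BilinForm.exists_orthogonal_basis hBs
  have hfr : Module.finrank F (Fin n → F) = n := by simp
  set w := v.reindex (finCongr hfr) with hw
  have hwo : ∀ i j, i ≠ j → B (w i) (w j) = 0 := by
    intro i j hij
    rw [hw, Module.Basis.reindex_apply, Module.Basis.reindex_apply]
    apply hv
    intro h
    exact hij ((finCongr hfr).symm.injective h)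
  set P : Matrix (Fin n) (Fin n) F := Matrix.of fun i j => w i j with hP
  have hPu : IsUnit P := by
    rw [← Matrix.linearIndependent_rows_iff_isUnit]
    exact w.linearIndependent
  have hPd : IsUnit P.det := (Matrix.isUnit_iff_isUnit_det _).1 hPu
  have hPG : P * G * Pᵀ = Matrix.diagonal fun i => B (w i) (w i) := by
    ext i j
    have e : (P * G * Pᵀ) i j = B (w i) (w j) := by
      rw [hBa, Matrix.dotProduct_mulVec]
      rfl
    rw [e, Matrix.diagonal_apply]
    by_cases hij : i = j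
    · subst hij
      rw [if_pos rfl]
    · rw [if_neg hij]
      exact hwo i j hij
  have hdet : (P * G * Pᵀ).det ≠ 0 := by
    rw [Matrix.det_mul, Matrix.det_mul, Matrix.det_transpose]
    exact mul_ne_zero (mul_ne_zero hPd.ne_zero hd) hPd.ne_zero
  refine ⟨fun i => B (w i) (w i), P⁻¹, ?_, ?_, ?_⟩
  · intro i h0
    apply hdet
    rw [hPG, Matrix.det_diagonal]
    exact Finset.prod_eq_zero (Finset.mem_univ i) h0
  · have h1 := Matrix.isUnit_nonsing_inv_det P hPd
    exact h1.ne_zero
  · rw [← hPG, Matrix.transpose_nonsing_inv]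
    have hPt : IsUnit Pᵀ.det := by rwa [Matrix.det_transpose]
    calc P⁻¹ * (P * G * Pᵀ) * (Pᵀ)⁻¹ = (P⁻¹ * P) * G * (Pᵀ * (Pᵀ)⁻¹) := by
          simp only [Matrix.mul_assoc]
      _ = G := by
          rw [Matrix.nonsing_inv_mul _ hPd, Matrix.mul_nonsing_inv _ hPt, Matrix.one_mul,
            Matrix.mul_one]

/-- the Hasse invariant is a sign -/
lemma hasse_pm {F : Type} [Field F] (hs : IsSymbol (hil F)) : ∀ l : List F,
    hasse (hil F) l = 1 ∨ hasse (hil F) l = -1
  | [] => Or.inl rfl
  | a :: l => by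
    have h1 : ∀ l' : List F, (l'.map (hil F a)).prod = 1 ∨ (l'.map (hil F a)).prod = -1 := by
      intro l'
      induction l' with
      | nil => left; rfl
      | cons b l' ih =>
        rw [List.map_cons, List.prod_cons]
        rcases hs.pm a b with h | h <;> rcases ih with h' | h' <;> rw [h, h'] <;> simp
    rw [hasse]
    rcases h1 l with h | h <;> rcases hasse_pm hs l with h' | h' <;> rw [h, h'] <;> simp

/-- two diagonalisations of one matrix -/
lemma hasse_eq {F : Type} [Field F] [CharZero F] (hs : IsSymbol (hil F)) {n : ℕ}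
    {G : Matrix (Fin n) (Fin n) F} (hd : G.det ≠ 0) {a b : Fin n → F} (ha : ∀ i, a i ≠ 0)
    (hb : ∀ i, b i ≠ 0) {T R : Matrix (Fin n) (Fin n) F} (hT : T * Matrix.diagonal a * Tᵀ = G)
    (hR : R * Matrix.diagonal b * Rᵀ = G) :
    hasse (hil F) (List.ofFn a) = hasse (hil F) (List.ofFn b) := by
  symm
  refine Pool.Agent.N424.M4.has_ F (hil F) hs _ b a hb ha ⟨R⁻¹ * T, ?_⟩
  have hRd : R.det ≠ 0 := by
    intro h0
    apply hd
    rw [← hR, Matrix.det_mul, Matrix.det_mul, h0, zero_mul, zero_mul]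
  have hRu : IsUnit R.det := isUnit_iff_ne_zero.2 hRd
  have hRt : IsUnit Rᵀ.det := by rwa [Matrix.det_transpose]
  rw [Matrix.transpose_mul, Matrix.transpose_nonsing_inv]
  calc R⁻¹ * T * Matrix.diagonal a * (Tᵀ * (Rᵀ)⁻¹)
      = R⁻¹ * (T * Matrix.diagonal a * Tᵀ) * (Rᵀ)⁻¹ := by simp only [Matrix.mul_assoc]
    _ = R⁻¹ * (R * Matrix.diagonal b * Rᵀ) * (Rᵀ)⁻¹ := by rw [hT, hR]
    _ = (R⁻¹ * R) * Matrix.diagonal b * (Rᵀ * (Rᵀ)⁻¹) := by simp only [Matrix.mul_assoc]
    _ = Matrix.diagonal b := by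
        rw [Matrix.nonsing_inv_mul _ hRu, Matrix.mul_nonsing_inv _ hRt, Matrix.one_mul,
          Matrix.mul_one]

/-! ### Local constancy -/

section loc

variable {K : Type} [NontriviallyNormedField K] [CompleteSpace K] [CharZero K]

/-- elements near `a` differ from `a` by a square -/
lemma sq_nhds (a : K) (ha : a ≠ 0) : ∀ᶠ x in 𝓝 a, ∃ c : K, c ≠ 0 ∧ x = a * c ^ 2 := by
  have h1 : HasStrictDerivAt (fun c : K => a * c ^ 2) (a * (2 * 1)) 1 := by
    have h2 : HasStrictDerivAt (fun c : K => c ^ 2) (2 * 1) 1 := by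
      simpa using hasStrictDerivAt_pow 2 (1 : K)
    exact h2.const_mul a
  have h3 := h1.map_nhds_eq (by simpa using ha)
  simp only [one_pow, mul_one] at h3
  rw [← h3]
  have h4 : {c : K | c ≠ 0} ∈ 𝓝 (1 : K) := isOpen_ne.mem_nhds one_ne_zero
  filter_upwards [Filter.image_mem_map h4]
  rintro x ⟨c, hc, rfl⟩
  exact ⟨c, hc, rfl⟩

omit [CompleteSpace K] [CharZero K] in
lemma udu_apply {n : ℕ} (U : Matrix (Fin n) (Fin n) K) (a : Fin n → K) (i j : Fin n) :
    (U * Matrix.diagonal a * Uᵀ) i j = ∑ l, U i l * a l * U j l := by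
  rw [Matrix.mul_apply]
  refine Finset.sum_congr rfl fun l _ => ?_
  rw [Matrix.mul_diagonal, Matrix.transpose_apply]

/-- a symmetric matrix near a nondegenerate diagonal matrix is isometric to it -/
lemma near_diag : ∀ (n : ℕ) (a : Fin n → K), (∀ i, a i ≠ 0) →
    ∀ᶠ N in 𝓝 (Matrix.diagonal a), N.IsSymm →
      ∃ U : Matrix (Fin n) (Fin n) K, U * Matrix.diagonal a * Uᵀ = N := by
  intro n
  induction n with
  | zero =>
    intro a _
    refine Filter.Eventually.of_forall fun N _ => ⟨0, ?_⟩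
    exact Subsingleton.elim _ _
  | succ n ih =>
    intro a ha
    have h1 := sq_nhds (a 0) (ha 0)
    have hev : ∀ i j : Fin (n + 1), Continuous
        (fun N : Matrix (Fin (n + 1)) (Fin (n + 1)) K => N i j) := fun i j => by fun_prop
    have h2 : ∀ᶠ N in 𝓝 (Matrix.diagonal a), ∃ c : K, c ≠ 0 ∧ N 0 0 = a 0 * c ^ 2 := by
      have h3 : Tendsto (fun N : Matrix (Fin (n + 1)) (Fin (n + 1)) K => N 0 0)
          (𝓝 (Matrix.diagonal a)) (𝓝 (a 0)) := by
        have := (hev 0 0).tendsto (Matrix.diagonal a)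
        simpa using this
      exact h3.eventually h1
    have h4 : Tendsto (fun N : Matrix (Fin (n + 1)) (Fin (n + 1)) K =>
        (Matrix.of fun i j : Fin n => N i.succ j.succ - N i.succ 0 * N j.succ 0 / N 0 0 :
          Matrix (Fin n) (Fin n) K))
        (𝓝 (Matrix.diagonal a)) (𝓝 (Matrix.diagonal fun i => a i.succ)) := by
      refine tendsto_pi_nhds.2 fun i => tendsto_pi_nhds.2 fun j => ?_
      have h5 : Tendsto (fun N : Matrix (Fin (n + 1)) (Fin (n + 1)) K =>
          N i.succ j.succ - N i.succ 0 * N j.succ 0 / N 0 0) (𝓝 (Matrix.diagonal a))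
          (𝓝 (Matrix.diagonal a i.succ j.succ - Matrix.diagonal a i.succ 0 *
            Matrix.diagonal a j.succ 0 / Matrix.diagonal a 0 0)) := by
        refine ((hev _ _).tendsto _).sub ((((hev _ _).tendsto _).mul ((hev _ _).tendsto _)).div
          ((hev _ _).tendsto _) ?_)
        simpa using ha 0
      have h6 : Matrix.diagonal a i.succ j.succ - Matrix.diagonal a i.succ 0 *
            Matrix.diagonal a j.succ 0 / Matrix.diagonal a 0 0 =
          Matrix.diagonal (fun i : Fin n => a i.succ) i j := by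
        rw [Matrix.diagonal_apply_ne a (Fin.succ_ne_zero i), zero_mul, zero_div, sub_zero,
          Matrix.diagonal_apply, Matrix.diagonal_apply]
        simp
      rw [← h6]
      exact h5
    have h7 := h4.eventually (ih (fun i => a i.succ) fun i => ha i.succ)
    filter_upwards [h2, h7] with N hN1 hN2 hsym
    obtain ⟨c, hc, hx⟩ := hN1
    have hs : ∀ i j, N i j = N j i := fun i j => by
      conv_lhs => rw [← hsym.eq]
      rfl
    obtain ⟨U, hU⟩ := hN2 (by
      ext i j
      rw [Matrix.transpose_apply, Matrix.of_apply, Matrix.of_apply, hs j.succ i.succ,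
        mul_comm (N j.succ 0)])
    have ha0 := ha 0
    have hUe : ∀ i j : Fin n, ∑ l, U i l * a l.succ * U j l =
        N i.succ j.succ - N i.succ 0 * N j.succ 0 / N 0 0 := fun i j => by
      have := congrFun (congrFun hU i) j
      rw [udu_apply] at this
      exact this
    refine ⟨Matrix.of (Fin.cons (Fin.cons c fun _ => 0)
      fun i => Fin.cons (N i.succ 0 / (a 0 * c)) (U i)), ?_⟩
    ext i j
    rw [udu_apply, Fin.sum_univ_succ]
    refine Fin.cases ?_ (fun i' => ?_) i
    · refine Fin.cases ?_ (fun j' => ?_) j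
      · simp only [Matrix.of_apply, Fin.cons_zero, Fin.cons_succ, zero_mul, Finset.sum_const_zero,
          add_zero]
        rw [hx]; ring
      · simp only [Matrix.of_apply, Fin.cons_zero, Fin.cons_succ, zero_mul, Finset.sum_const_zero,
          add_zero]
        rw [hs 0 j'.succ]
        field_simp
    · refine Fin.cases ?_ (fun j' => ?_) j
      · simp only [Matrix.of_apply, Fin.cons_zero, Fin.cons_succ, mul_zero, Finset.sum_const_zero,
          add_zero]
        field_simp
      · simp only [Matrix.of_apply, Fin.cons_zero, Fin.cons_succ]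
        rw [hUe, hx]
        field_simp
        ring

/-- a symmetric matrix near a given nondegenerate one is isometric to it -/
lemma near_form {n : ℕ} {a : Fin n → K} (ha : ∀ i, a i ≠ 0) {T G : Matrix (Fin n) (Fin n) K}
    (hT : T * Matrix.diagonal a * Tᵀ = G) (hd : G.det ≠ 0) :
    ∃ δ : ℝ, 0 < δ ∧ ∀ G' : Matrix (Fin n) (Fin n) K, G'.IsSymm →
      (∀ i j, ‖G' i j - G i j‖ < δ) → ∃ U : Matrix (Fin n) (Fin n) K,
        U * Matrix.diagonal a * Uᵀ = G' := by
  have hTd : T.det ≠ 0 := by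
    intro h0
    apply hd
    rw [← hT, Matrix.det_mul, Matrix.det_mul, h0, zero_mul, zero_mul]
  have hTu : IsUnit T.det := isUnit_iff_ne_zero.2 hTd
  have hTt : IsUnit Tᵀ.det := by rwa [Matrix.det_transpose]
  have hc : Continuous (fun N : Matrix (Fin n) (Fin n) K => T⁻¹ * N * (Tᵀ)⁻¹) := by fun_prop
  have h0 : T⁻¹ * G * (Tᵀ)⁻¹ = Matrix.diagonal a := by
    rw [← hT]
    calc T⁻¹ * (T * Matrix.diagonal a * Tᵀ) * (Tᵀ)⁻¹
        = (T⁻¹ * T) * Matrix.diagonal a * (Tᵀ * (Tᵀ)⁻¹) := by simp only [Matrix.mul_assoc]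
      _ = Matrix.diagonal a := by
        rw [Matrix.nonsing_inv_mul _ hTu, Matrix.mul_nonsing_inv _ hTt, Matrix.one_mul,
          Matrix.mul_one]
  have h1 : Tendsto (fun N : Matrix (Fin n) (Fin n) K => T⁻¹ * N * (Tᵀ)⁻¹) (𝓝 G)
      (𝓝 (Matrix.diagonal a)) := by
    have := hc.tendsto G
    rwa [h0] at this
  have h2 := h1.eventually (near_diag n a ha)
  have hof : Continuous (fun N : Fin n → Fin n → K => (Matrix.of N : Matrix (Fin n) (Fin n) K)) :=
    continuous_matrix fun i j => by
      simp only [Matrix.of_apply]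
      fun_prop
  have h3 : ∀ᶠ N : Fin n → Fin n → K in 𝓝 (Matrix.of.symm G),
      (T⁻¹ * (Matrix.of N) * (Tᵀ)⁻¹).IsSymm →
      ∃ U : Matrix (Fin n) (Fin n) K, U * Matrix.diagonal a * Uᵀ =
        T⁻¹ * (Matrix.of N) * (Tᵀ)⁻¹ := (hof.tendsto (Matrix.of.symm G)).eventually h2
  obtain ⟨δ, hδ, h4⟩ := Metric.eventually_nhds_iff.1 h3
  refine ⟨δ, hδ, fun G' hs hG' => ?_⟩
  obtain ⟨U, hU⟩ := h4 (y := Matrix.of.symm G') (by
      rw [dist_pi_lt_iff hδ]
      intro i
      rw [dist_pi_lt_iff hδ]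
      intro j
      rw [dist_eq_norm]
      exact hG' i j) (by
    unfold Matrix.IsSymm
    rw [Equiv.apply_symm_apply, Matrix.transpose_mul, Matrix.transpose_mul, hs.eq,
      Matrix.transpose_nonsing_inv, Matrix.transpose_nonsing_inv, Matrix.transpose_transpose,
      Matrix.mul_assoc])
  rw [Equiv.apply_symm_apply] at hU
  refine ⟨T * U, ?_⟩
  rw [Matrix.transpose_mul]
  calc T * U * Matrix.diagonal a * (Uᵀ * Tᵀ) = T * (U * Matrix.diagonal a * Uᵀ) * Tᵀ := by
        simp only [Matrix.mul_assoc]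
    _ = (T * T⁻¹) * G' * ((Tᵀ)⁻¹ * Tᵀ) := by rw [hU]; simp only [Matrix.mul_assoc]
    _ = G' := by
        rw [Matrix.mul_nonsing_inv _ hTu, Matrix.nonsing_inv_mul _ hTt, Matrix.one_mul,
          Matrix.mul_one]

end loc

end Pool.Agent.N286.PF
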