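import Pool.Agent.N783.PF.Loc
import Pool.Agent.N446.M4.Sym
import Pool.Agent.N286.PF.HVBase

/-!
# Project PF (helper783), part HV: the Hasse invariant of a symmetric matrix

By helper286.
-/

set_option autoImplicit false
set_option linter.all false

open Matrix Filter Topology
open scoped Classical

namespace Pool.Agent.N286.PF

open Pool.Agent.N202.M4 (hasse hil IsSymbol)
open Pool.Agent.N783.PF

section

variable {E : Type} [Field E] {ι : Type} [Fintype ι]

lemma sub_tmt {n : ℕ} (φ : Fin n ≃ ι) (T M : Matrix ι ι E) :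
    (T * M * Tᵀ).submatrix φ φ = T.submatrix φ φ * M.submatrix φ φ * (T.submatrix φ φ)ᵀ := by
  rw [Matrix.transpose_submatrix, Matrix.submatrix_mul_equiv, Matrix.submatrix_mul_equiv]

lemma sub_det {n : ℕ} (φ : Fin n ≃ ι) (M : Matrix ι ι E) : (M.submatrix φ φ).det = M.det := by
  have h := Matrix.det_submatrix_equiv_self φ M
  convert h

lemma sub_symm {n : ℕ} (φ : Fin n ≃ ι) {M : Matrix ι ι E} (h : M.IsSymm) :
    (M.submatrix φ φ).IsSymm := by
  unfold Matrix.IsSymm
  rw [Matrix.transpose_submatrix, h.eq]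

variable [CharZero E]

/-- the invariant with given diagonal form -/
lemma hv_unique (hs : IsSymbol (hil E)) {M : Matrix ι ι E} (hd : M.det ≠ 0) {ε ε' : ℤ}
    (h : HV M ε) (h' : HV M ε') : ε = ε' := by
  obtain ⟨n, φ, a, T, ha, hT, rfl⟩ := h
  obtain ⟨n', φ', a', T', ha', hT', rfl⟩ := h'
  have hn : n = n' := by
    have := Fintype.card_congr (φ.trans φ'.symm)
    simpa using this
  subst hn
  have e : M.submatrix φ' φ' = (M.submatrix φ φ).submatrix (φ'.trans φ.symm) (φ'.trans φ.symm) := by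
    rw [Matrix.submatrix_submatrix]
    congr 1 <;> · funext i; simp
  have h1 : T.submatrix (φ'.trans φ.symm) id * Matrix.diagonal a *
      (T.submatrix (φ'.trans φ.symm) id)ᵀ = M.submatrix φ' φ' := by
    rw [e, ← hT]
    ext i j
    rw [Matrix.submatrix_apply, Matrix.mul_apply, Matrix.mul_apply]
    refine Finset.sum_congr rfl fun l _ => ?_
    rw [Matrix.mul_diagonal, Matrix.mul_diagonal]
    rfl
  exact hasse_eq hs (by rw [sub_det]; exact hd) ha ha' h1 hT'

end

/-- The Hasse invariant is an invariant. -/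
theorem hvg : S_HVG := by
  intro E _ _ hs ι _ M hM hd
  refine ⟨?_, fun ε ε' => hv_unique hs hd, ?_⟩
  · have φ : Fin (Fintype.card ι) ≃ ι := (Fintype.equivFin ι).symm
    obtain ⟨a, T, ha, -, hT⟩ := exists_diag (M.submatrix φ φ) (sub_symm φ hM)
      (by rw [sub_det]; exact hd)
    exact ⟨hasse (hil E) (List.ofFn a), hasse_pm hs _, _, φ, a, T, ha, hT, rfl⟩
  · rintro T ε hT ⟨n, φ, a, R, ha, hR, e⟩
    refine ⟨n, φ, a, T.submatrix φ φ * R, ha, ?_, e⟩
    rw [sub_tmt, ← hR, Matrix.transpose_mul]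
    simp only [Matrix.mul_assoc]

/-- The Hasse invariant is locally constant. -/
theorem hvc : S_HVC := by
  intro p hp ι _ M hM hd
  have hs : IsSymbol (hil ℚ_[p]) := Pool.Agent.N446.M4.sym_ p
  set Mp : Matrix ι ι ℚ_[p] := M.map (Rat.castHom ℚ_[p]) with hMp
  have hMs : Mp.IsSymm := by
    rw [hMp]
    unfold Matrix.IsSymm
    rw [← Matrix.transpose_map, hM.eq]
  have hMd : Mp.det ≠ 0 := by
    rw [hMp, ← RingHom.mapMatrix_apply, ← RingHom.map_det]
    intro h0
    exact hd ((map_eq_zero_iff _ (Rat.castHom ℚ_[p]).injective).1 h0)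
  have φ : Fin (Fintype.card ι) ≃ ι := (Fintype.equivFin ι).symm
  obtain ⟨a, T, ha, -, hT⟩ := exists_diag (Mp.submatrix φ φ) (sub_symm φ hMs)
    (by rw [sub_det]; exact hMd)
  obtain ⟨δ, hδ, hG⟩ := near_form ha hT (by rw [sub_det]; exact hMd)
  have hp1 : (1 : ℝ) < p := by exact_mod_cast hp.out.one_lt
  obtain ⟨k, hk⟩ := exists_pow_lt_of_lt_one hδ (inv_lt_one_of_one_lt₀ hp1)
  refine ⟨k, fun M' hM' hclose ε hε => ?_⟩
  have e1 : ε = hasse (hil ℚ_[p]) (List.ofFn a) :=
    hv_unique hs hMd hε ⟨_, φ, a, T, ha, hT, rfl⟩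
  have hMs' : (M'.map (Rat.castHom ℚ_[p])).IsSymm := by
    unfold Matrix.IsSymm
    rw [← Matrix.transpose_map, hM'.eq]
  obtain ⟨U, hU⟩ := hG ((M'.map (Rat.castHom ℚ_[p])).submatrix φ φ) (sub_symm φ hMs')
    (fun i j => by
      have h1 := hclose (φ i) (φ j)
      rw [Matrix.submatrix_apply, Matrix.submatrix_apply, hMp, Matrix.map_apply, Matrix.map_apply,
        ← map_sub]
      refine lt_of_le_of_lt h1 ?_
      rwa [_root_.zpow_neg, zpow_natCast, ← inv_pow])
  exact ⟨_, φ, a, U, ha, hU, e1.symm⟩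

end Pool.Agent.N286.PF
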